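import Pool.Agent.helper3.FS.SpecE

/-!
# DBP (block fs:, part E, helper8): THE DOUBLE POINT
-/

set_option autoImplicit false

open Complex Metric Set Filter Topology MeasureTheory
open HY (UD T S hd UN RM)
open RT

noncomputable section

namespace FSE

/-- The derivative of the lift vanishes at the lifts of a critical point. -/
theorem DBP_der {W V : Set ℂ} {F G : ℂ → ℂ} {z q c x : ℂ} (hWo : IsOpen W) (hF : DifferentiableOn ℂ F W)
    (hφ : DifferentiableOn ℂ (rm W z) UD) (hψ : DifferentiableOn ℂ (rm V q) UD) (hψ' : deriv (rm V q) (G x) ≠ 0)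
    (hL : Lf F W V z q G) (hx : x ∈ UD) (hxc : rm W z x = c) (hc : c ∈ W) (hdc : deriv F c = 0) : deriv G x = 0 := by
  obtain ⟨hG, hGm, hGe⟩ := hL
  have hUo : IsOpen UD := isOpen_ball
  have h1 : HasDerivAt (fun y => rm V q (G y)) (deriv (rm V q) (G x) * deriv G x) x := by
    have a1 : HasDerivAt (rm V q) (deriv (rm V q) (G x)) (G x) :=
      (hψ.differentiableAt (hUo.mem_nhds (hGm hx))).hasDerivAt
    have a2 : HasDerivAt G (deriv G x) x := (hG.differentiableAt (hUo.mem_nhds hx)).hasDerivAt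
    exact a1.comp x a2
  have h2 : HasDerivAt (fun y => F (rm W z y)) (deriv F (rm W z x) * deriv (rm W z) x) x := by
    have a1 : HasDerivAt F (deriv F (rm W z x)) (rm W z x) := by
      refine (hF.differentiableAt (hWo.mem_nhds ?_)).hasDerivAt
      rw [hxc]; exact hc
    have a2 : HasDerivAt (rm W z) (deriv (rm W z) x) x := (hφ.differentiableAt (hUo.mem_nhds hx)).hasDerivAt
    exact a1.comp x a2
  have h3 : (fun y => rm V q (G y)) =ᶠ[𝓝 x] (fun y => F (rm W z y)) := by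
    filter_upwards [hUo.mem_nhds hx] with y hy
    exact hGe y hy
  have h4 := (h1.congr_of_eventuallyEq h3.symm).unique h2
  rw [hxc, hdc, zero_mul] at h4
  exact (mul_eq_zero.1 h4).resolve_left hψ'

theorem DBP (hFDV : FDV_stmt) (hTBL : RT.TBL_stmt) (hTLF : RT.TLF_stmt) (hTDF : RT.TDF_stmt) (hTBM : RT.TBM_stmt)
    (hQFN : RT.QFN_stmt) : DBP_stmt := by
  intro s W V F hs hW hV hF hFm c hc hdc z hz
  have hFz : F z ∈ V := hFm hz
  have hFc : F c ∈ V := hFm hc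
  by_cases hzc : z = c
  · subst hzc
    rw [(hTBM s V hs hV (F z) hFz (F z) hFz).1]
    positivity
  obtain ⟨hUW, -, -, -, -, -, hW7⟩ := hTDF s W hW z hz
  obtain ⟨hUV, -, -, -, -, -, hV7⟩ := hTDF s V hV (F z) hFz
  have h0 : (0 : ℂ) ∈ UD := mem_ball_self one_pos
  obtain ⟨G, hL, hG0, -⟩ := hTLF s W V F hW hV hF hFm z hz (F z) hFz 0 h0 0 h0 (by rw [hUV.val, hUW.val])
  obtain ⟨B, hB, hB1, -⟩ := hTBL s V hs hV (F z) hFz (F c)
  have hUo : IsOpen UD := isOpen_ball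
  have hhd : DifferentiableOn ℂ (fun y => B (G y)) UD := hB.comp hL.1 hL.2.1
  have hn : ∀ y ∈ UD, ‖B (G y)‖ = bl V (F (rm W z y)) (F c) := by
    intro y hy
    rw [(hB1 (G y) (hL.2.1 hy)).1, hL.2.2 y hy]
  have hhm : MapsTo (fun y => B (G y)) UD (closedBall 0 1) := by
    intro y hy
    exact mem_closedBall_zero_iff.2 (hB1 (G y) (hL.2.1 hy)).2
  have key : ∀ E : Finset ℂ, (∀ x ∈ E, x ∈ lf W z c) → bl V (F z) (F c) ≤ (∏ x ∈ E, ‖x‖) ^ 2 := by
    intro E hE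
    have hz1 : ∀ x ∈ E, x ∈ UD ∧ (fun y => B (G y)) x = 0 := by
      intro x hx
      obtain ⟨hxU, hxc⟩ := hE x hx
      refine ⟨hxU, ?_⟩
      have h1 := hn x hxU
      rw [hxc, (hTBM s V hs hV (F c) hFc (F c) hFc).1] at h1
      exact norm_eq_zero.1 h1
    have hz2 : ∀ x ∈ E, deriv (fun y => B (G y)) x = 0 := by
      intro x hx
      obtain ⟨hxU, hxc⟩ := hE x hx
      have hGx : G x ∈ UD := hL.2.1 hxU
      have h1 : deriv G x = 0 :=
        DBP_der hW.op hF hUW.dif hUV.dif (hV7 (G x) hGx).2.2.1 hL hxU hxc hc hdc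
      have h2 : HasDerivAt (fun y => B (G y)) (deriv B (G x) * deriv G x) x := by
        have a1 : HasDerivAt B (deriv B (G x)) (G x) := (hB.differentiableAt (hUo.mem_nhds hGx)).hasDerivAt
        have a2 : HasDerivAt G (deriv G x) x := (hL.1.differentiableAt (hUo.mem_nhds hxU)).hasDerivAt
        exact a1.comp x a2
      rw [h2.deriv, h1, mul_zero]
    obtain ⟨g, -, hgm, hge⟩ := (hFDV (fun y => B (G y)) E hhd hhm hz1).2 hz2
    have h1 := hge 0 h0
    have h2 : ‖B (G 0)‖ = bl V (F z) (F c) := by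
      rw [hn 0 h0, hUW.val]
    have h3 : ‖g 0‖ ≤ 1 := mem_closedBall_zero_iff.1 (hgm h0)
    have h4 : ‖∏ x ∈ E, T x 0‖ = ∏ x ∈ E, ‖x‖ := by
      rw [norm_prod]
      refine Finset.prod_congr rfl fun x _ => ?_
      simp [HY.T]
    rw [← h2]
    have h5 : ‖B (G 0)‖ = ‖g 0‖ * (∏ x ∈ E, ‖x‖) ^ 2 := by
      have h6 : B (G 0) = g 0 * (∏ x ∈ E, T x 0) ^ 2 := h1
      rw [h6, norm_mul, norm_pow, h4]
    rw [h5]
    have h6 : 0 ≤ (∏ x ∈ E, ‖x‖) ^ 2 := by positivity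
    calc ‖g 0‖ * (∏ x ∈ E, ‖x‖) ^ 2 ≤ 1 * (∏ x ∈ E, ‖x‖) ^ 2 := mul_le_mul_of_nonneg_right h3 h6
      _ = _ := one_mul _
  obtain ⟨-, -, -, -, -, -, -, happ⟩ := (hQFN s W hs hW).1 z hz c hc hzc
  have hb0 : 0 ≤ bl W z c := (hTBM s W hs hW z hz c hc).2.1
  have hb1 : bl W z c ≤ 1 := by
    have h1 := (hQFN s W hs hW).2 z c
    linarith [h1.2.1, h1.2.2]
  refine le_of_forall_pos_le_add fun δ hδ => ?_
  obtain ⟨E, hE, hE1, -⟩ := happ (min (δ / 3) 1) (by positivity)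
  have h1 := key E hE
  have h2 : 0 ≤ ∏ x ∈ E, ‖x‖ := Finset.prod_nonneg fun x _ => norm_nonneg x
  have h3 : min (δ / 3) 1 ≤ δ / 3 := min_le_left _ _
  have h4 : min (δ / 3) 1 ≤ 1 := min_le_right _ _
  have h5 : 0 < min (δ / 3) 1 := by positivity
  have h6 : (∏ x ∈ E, ‖x‖) ^ 2 ≤ (bl W z c + min (δ / 3) 1) ^ 2 := pow_le_pow_left₀ h2 hE1 2
  have h7 : (bl W z c + min (δ / 3) 1) ^ 2 ≤ bl W z c ^ 2 + δ := by nlinarith
  linarith

end FSE
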